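import Pool.Agent.H6.RCQ.Stmts4
import Pool.Agent.H6.RCQ.Util

/-!
# Project RCQ: common facts for the canonical position of degree five
-/

set_option autoImplicit false

namespace Pool.Agent.H45.RCQ

open Pool.Agent.H39.RC Pool.Agent.H6.RCQ
open Classical

variable {V : Type} {G : SimpleGraph V} {R : Finset V} {x : V} {t : ℕ → V} {u v : V}

theorem mem_D {y : V} : y ∈ D G R x ↔ y ∈ R ∧ G.Adj x y := by
  simp [D]

theorem mem_U {y : V} : y ∈ U G R x ↔ y ∈ R ∧ y ≠ x ∧ ¬ G.Adj x y := by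
  simp [U]

theorem k5_swap (H : K5 G R x t u v) : K5 G R x t v u where
  toW5 := H.toW5
  c10 := H.c10
  c12 := H.c12
  mu := H.mv
  mv := H.mu
  nuv := H.nuv.symm
  auv := fun h => H.auv h.symm

theorem bad_swap {s : V} (H : Bad G x u v s) : Bad G x v u s :=
  fun c h1 h2 h3 => H c h1 h3 h2

theorem hub_swap {c a b d : V} (H : Hub G R x u v c a b d) : Hub G R x v u c a b d where
  ne := H.ne
  out := H.out
  cu := H.cv
  cv := H.cu
  ca := H.ca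
  cb := H.cb
  cd := H.cd

theorem w5_tR (H : W5 G R x t) {i : ℕ} (hi : i < 5) : t i ∈ R :=
  (mem_D.1 (H.circ.mem i hi)).1

theorem w5_xt (H : W5 G R x t) {i : ℕ} (hi : i < 5) : G.Adj x (t i) :=
  (mem_D.1 (H.circ.mem i hi)).2

theorem w5_ne (H : W5 G R x t) {i j : ℕ} (hi : i < 5) (hj : j < 5) (hij : i ≠ j) : t i ≠ t j :=
  fun h => hij (H.circ.inj i hi j hj h)

theorem w5_nadj (H : W5 G R x t) {i j : ℕ} (hi : i < 5) (hj : j < 5) (h1 : j ≠ (i + 1) % 5)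
    (h2 : i ≠ (j + 1) % 5) : ¬ G.Adj (t i) (t j) := by
  intro h
  rcases H.adj i hi j hj h with h | h
  · exact h1 h
  · exact h2 h

/-- the basic facts in a form suited to automation -/
structure F5 (G : SimpleGraph V) (R : Finset V) (x : V) (a0 a1 a2 a3 a4 : V) : Prop where
  s5 : S6 G R 5
  r0 : a0 ∈ R
  r1 : a1 ∈ R
  r2 : a2 ∈ R
  r3 : a3 ∈ R
  r4 : a4 ∈ R
  x0 : G.Adj x a0
  x1 : G.Adj x a1
  x2 : G.Adj x a2
  x3 : G.Adj x a3
  x4 : G.Adj x a4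
  n01 : a0 ≠ a1
  n02 : a0 ≠ a2
  n03 : a0 ≠ a3
  n04 : a0 ≠ a4
  n12 : a1 ≠ a2
  n13 : a1 ≠ a3
  n14 : a1 ≠ a4
  n23 : a2 ≠ a3
  n24 : a2 ≠ a4
  n34 : a3 ≠ a4
  b02 : ¬ G.Adj a0 a2
  b03 : ¬ G.Adj a0 a3
  b13 : ¬ G.Adj a1 a3
  b14 : ¬ G.Adj a1 a4
  b24 : ¬ G.Adj a2 a4
  w02 : ∀ h, h ≠ x → G.Adj h a0 → G.Adj h a2 → h = a1
  w03 : ∀ h, h ≠ x → G.Adj h a0 → G.Adj h a3 → h = a4
  w13 : ∀ h, h ≠ x → G.Adj h a1 → G.Adj h a3 → h = a2
  w14 : ∀ h, h ≠ x → G.Adj h a1 → G.Adj h a4 → h = a0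
  w24 : ∀ h, h ≠ x → G.Adj h a2 → G.Adj h a4 → h = a3
  dx : ∀ h, h ∈ R → G.Adj x h → h = a0 ∨ h = a1 ∨ h = a2 ∨ h = a3 ∨ h = a4
  c0123 : Cr G x a0 a1 a2 a3
  c0124 : Cr G x a0 a1 a2 a4
  c0134 : Cr G x a0 a1 a3 a4
  c0234 : Cr G x a0 a2 a3 a4
  c1234 : Cr G x a1 a2 a3 a4

theorem F5.of (H : W5 G R x t) : F5 G R x (t 0) (t 1) (t 2) (t 3) (t 4) := by
  have hw : ∀ i j k : ℕ, i < 5 → j < 5 → (∀ m < 5, ¬ ((i = m ∨ i = (m + 1) % 5) ∧
      (j = m ∨ j = (m + 1) % 5))) → (∀ l < 5, (i = (l + 1) % 5 ∨ l = (i + 1) % 5) →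
      (j = (l + 1) % 5 ∨ l = (j + 1) % 5) → l = k) → ∀ h, h ≠ x → G.Adj h (t i) →
      G.Adj h (t j) → h = t k := by
    intro i j k hi hj hm hl h hx h1 h2
    by_cases hD : h ∈ D G R x
    · obtain ⟨l, hl5, rfl⟩ := H.circ.all h hD
      rw [hl l hl5 (H.adj l hl5 i hi h1) (H.adj l hl5 j hj h2)]
    · obtain ⟨m, hm5, hm'⟩ := H.win h hx hD
      exact absurd ⟨hm' i hi h1, hm' j hj h2⟩ (hm m hm5)
  exact {
    s5 := H.s5
    r0 := w5_tR H (by norm_num)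
    r1 := w5_tR H (by norm_num)
    r2 := w5_tR H (by norm_num)
    r3 := w5_tR H (by norm_num)
    r4 := w5_tR H (by norm_num)
    x0 := w5_xt H (by norm_num)
    x1 := w5_xt H (by norm_num)
    x2 := w5_xt H (by norm_num)
    x3 := w5_xt H (by norm_num)
    x4 := w5_xt H (by norm_num)
    n01 := w5_ne H (by norm_num) (by norm_num) (by norm_num)
    n02 := w5_ne H (by norm_num) (by norm_num) (by norm_num)
    n03 := w5_ne H (by norm_num) (by norm_num) (by norm_num)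
    n04 := w5_ne H (by norm_num) (by norm_num) (by norm_num)
    n12 := w5_ne H (by norm_num) (by norm_num) (by norm_num)
    n13 := w5_ne H (by norm_num) (by norm_num) (by norm_num)
    n14 := w5_ne H (by norm_num) (by norm_num) (by norm_num)
    n23 := w5_ne H (by norm_num) (by norm_num) (by norm_num)
    n24 := w5_ne H (by norm_num) (by norm_num) (by norm_num)
    n34 := w5_ne H (by norm_num) (by norm_num) (by norm_num)
    b02 := w5_nadj H (by norm_num) (by norm_num) (by norm_num) (by norm_num)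
    b03 := w5_nadj H (by norm_num) (by norm_num) (by norm_num) (by norm_num)
    b13 := w5_nadj H (by norm_num) (by norm_num) (by norm_num) (by norm_num)
    b14 := w5_nadj H (by norm_num) (by norm_num) (by norm_num) (by norm_num)
    b24 := w5_nadj H (by norm_num) (by norm_num) (by norm_num) (by norm_num)
    w02 := hw 0 2 1 (by norm_num) (by norm_num) (by decide) (by decide)
    w03 := hw 0 3 4 (by norm_num) (by norm_num) (by decide) (by decide)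
    w13 := hw 1 3 2 (by norm_num) (by norm_num) (by decide) (by decide)
    w14 := hw 1 4 0 (by norm_num) (by norm_num) (by decide) (by decide)
    w24 := hw 2 4 3 (by norm_num) (by norm_num) (by decide) (by decide)
    dx := by
      intro h h1 h2
      obtain ⟨l, hl5, rfl⟩ := H.circ.all h (mem_D.2 ⟨h1, h2⟩)
      interval_cases l <;> simp
    c0123 := H.circ.cr 0 1 2 3 (by norm_num) (by norm_num) (by norm_num) (by norm_num)
    c0124 := H.circ.cr 0 1 2 4 (by norm_num) (by norm_num) (by norm_num) (by norm_num)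
    c0134 := H.circ.cr 0 1 3 4 (by norm_num) (by norm_num) (by norm_num) (by norm_num)
    c0234 := H.circ.cr 0 2 3 4 (by norm_num) (by norm_num) (by norm_num) (by norm_num)
    c1234 := H.circ.cr 1 2 3 4 (by norm_num) (by norm_num) (by norm_num) (by norm_num) }

/-- the facts on a vertex of `U` -/
structure FU (G : SimpleGraph V) (R : Finset V) (x a0 a1 a2 a3 a4 u : V) : Prop where
  r : u ∈ R
  nx : u ≠ x
  ax : ¬ G.Adj u x
  n0 : u ≠ a0
  n1 : u ≠ a1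
  n2 : u ≠ a2
  n3 : u ≠ a3
  n4 : u ≠ a4
  k0 : G.Adj u a0 ∨ ∃ k, k ≠ x ∧ G.Adj u k ∧ G.Adj k a0
  k1 : G.Adj u a1 ∨ ∃ k, k ≠ x ∧ G.Adj u k ∧ G.Adj k a1
  k2 : G.Adj u a2 ∨ ∃ k, k ≠ x ∧ G.Adj u k ∧ G.Adj k a2
  k3 : G.Adj u a3 ∨ ∃ k, k ≠ x ∧ G.Adj u k ∧ G.Adj k a3
  k4 : G.Adj u a4 ∨ ∃ k, k ≠ x ∧ G.Adj u k ∧ G.Adj k a4

theorem FU.of {a0 a1 a2 a3 a4 : V} (H : F5 G R x a0 a1 a2 a3 a4) (hu : u ∈ U G R x) :
    FU G R x a0 a1 a2 a3 a4 u := by
  obtain ⟨h1, h2, h3⟩ := mem_U.1 hu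
  have h3' : ¬ G.Adj u x := fun h => h3 h.symm
  have ne : ∀ {a}, G.Adj x a → u ≠ a := by
    rintro a ha rfl
    exact h3 ha
  have key : ∀ {a}, a ∈ R → G.Adj x a → G.Adj u a ∨ ∃ k, k ≠ x ∧ G.Adj u k ∧ G.Adj k a := by
    intro a ha hxa
    rcases H.s5.lf.lk u h1 a ha (ne hxa) with h | ⟨k, -, hk1, hk2⟩
    · exact Or.inl h
    · refine Or.inr ⟨k, ?_, hk1, hk2⟩
      rintro rfl
      exact h3' hk1
  exact ⟨h1, h2, h3', ne H.x0, ne H.x1, ne H.x2, ne H.x3, ne H.x4, key H.r0 H.x0, key H.r1 H.x1,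
    key H.r2 H.x2, key H.r3 H.x3, key H.r4 H.x4⟩

end Pool.Agent.H45.RCQ
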