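import Pool.Agent.H45.RCQ.K5Base

/-!
# Project RCQ: module K5C
-/

set_option autoImplicit false

namespace Pool.Agent.H45.RCQ.K5C

open Pool.Agent.H39.RC Pool.Agent.H6.RCQ Pool.Agent.H45.RCQ
open Classical

theorem core {V : Type} {G : SimpleGraph V} {R : Finset V} {x a0 a1 a2 a3 a4 u v : V}
    (F : F5 G R x a0 a1 a2 a3 a4) (hU : FU G R x a0 a1 a2 a3 a4 u)
    (hV : FU G R x a0 a1 a2 a3 a4 v) (nuv : u ≠ v) (auv : ¬ G.Adj u v) (u1 : G.Adj u a1)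
    (v1 : G.Adj v a1) (hb : Bad G x u v a3) : False := by
  have sy : ∀ {a b}, G.Adj a b → G.Adj b a := fun h => h.symm
  have nb : ∀ c, c ≠ x → G.Adj u c → G.Adj v c → c ≠ a3 ∧ ¬ G.Adj c a3 := by
    intro c h1 h2 h3
    exact ⟨fun h => hb c h1 h2 h3 (Or.inl h), fun h => hb c h1 h2 h3 (Or.inr h)⟩
  have u3 : ¬ G.Adj u a3 := fun h => hU.n2 (F.w13 u hU.nx u1 h)
  have u4 : ¬ G.Adj u a4 := fun h => hU.n0 (F.w14 u hU.nx u1 h)
  have v3 : ¬ G.Adj v a3 := fun h => hV.n2 (F.w13 v hV.nx v1 h)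
  have v4 : ¬ G.Adj v a4 := fun h => hV.n0 (F.w14 v hV.nx v1 h)
  obtain ⟨p, px, up, p3⟩ := hU.k3.resolve_left u3
  obtain ⟨p', px', up', p4⟩ := hU.k4.resolve_left u4
  obtain ⟨q, qx, vq, q3⟩ := hV.k3.resolve_left v3
  obtain ⟨q', qx', vq', q4⟩ := hV.k4.resolve_left v4
  obtain ⟨r, nx, ax, n0, n1, n2, n3, n4, -, -, -, -, -⟩ := hU
  obtain ⟨r', nx', ax', n0', n1', n2', n3', n4', -, -, -, -, -⟩ := hV
  have pg := F.s5.lf.pg
  obtain ⟨-, -, -, -, -, -, x0, x1, x2, x3, x4, n01, n02, n03, n04, n12, n13, n14, n23, n24, n34,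
    b02, b03, b13, b14, b24, w02, w03, w13, w14, w24, -, -, -, -, -, -⟩ := F
  have ne1 := x1.ne
  have ne3 := x3.ne
  have ne4 := x4.ne
  by_cases hpq : p' = q'
  · subst hpq
    have hc := nb p' px' up' vq'
    refine no33 pg (A := {x}) (B := {u, p}) (C := {v, q}) (D := {a1}) (E := {p', a4}) (F := {a3})
      (con_single _) (con_pair (Or.inr up)) (con_pair (Or.inr vq)) (con_single _)
      (con_pair (Or.inr p4)) (con_single _)
      ?_ ?_ ?_ ?_ ?_ ?_ ?_ ?_ ?_ ?_ ?_ ?_ ?_ ?_ ?_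
      ⟨x, by simp, a1, by simp, x1⟩ ⟨x, by simp, a4, by simp, x4⟩ ⟨x, by simp, a3, by simp, x3⟩
      ⟨u, by simp, a1, by simp, u1⟩ ⟨u, by simp, p', by simp, up'⟩ ⟨p, by simp, a3, by simp, p3⟩
      ⟨v, by simp, a1, by simp, v1⟩ ⟨v, by simp, p', by simp, vq'⟩ ⟨q, by simp, a3, by simp, q3⟩ <;>
      (simp only [Set.disjoint_left, Set.mem_insert_iff, Set.mem_singleton_iff]; grind)
  · refine no33 pg (A := {x}) (B := {p, u, p'}) (C := {q, v, q'}) (D := {a1}) (E := {a3})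
      (F := {a4})
      (con_single _) (con_three (Or.inr (sy up)) (Or.inr up'))
      (con_three (Or.inr (sy vq)) (Or.inr vq')) (con_single _) (con_single _) (con_single _)
      ?_ ?_ ?_ ?_ ?_ ?_ ?_ ?_ ?_ ?_ ?_ ?_ ?_ ?_ ?_
      ⟨x, by simp, a1, by simp, x1⟩ ⟨x, by simp, a3, by simp, x3⟩ ⟨x, by simp, a4, by simp, x4⟩
      ⟨u, by simp, a1, by simp, u1⟩ ⟨p, by simp, a3, by simp, p3⟩ ⟨p', by simp, a4, by simp, p4⟩
      ⟨v, by simp, a1, by simp, v1⟩ ⟨q, by simp, a3, by simp, q3⟩ ⟨q', by simp, a4, by simp, q4⟩ <;>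
      (simp only [Set.disjoint_left, Set.mem_insert_iff, Set.mem_singleton_iff]; grind)

theorem k5c : K5CStmt := by
  intro V G R x t u v H u1 v1 hb
  have F := F5.of H.toW5
  exact core F (FU.of F H.mu) (FU.of F H.mv) H.nuv H.auv u1 v1 hb

end Pool.Agent.H45.RCQ.K5C
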