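import Pool.Agent.H45.RCQ.K5Base

/-!
# Project RCQ: module K5D
-/

set_option autoImplicit false

namespace Pool.Agent.H45.RCQ.K5D

open Pool.Agent.H39.RC Pool.Agent.H6.RCQ Pool.Agent.H45.RCQ
open Classical

variable {V : Type} {G : SimpleGraph V} {R : Finset V} {x a0 a1 a2 a3 a4 u v : V}

theorem cr_no {a b c d : V} (h : Cr G x a b c d) {P Q : Set V} (cP : Con G P) (cQ : Con G Q)
    (xP : x ∉ P) (xQ : x ∉ Q) (aP : a ∈ P) (cP' : c ∈ P) (bQ : b ∈ Q) (dQ : d ∈ Q)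
    (dis : Disjoint P Q) : False :=
  Set.not_disjoint_iff_nonempty_inter.2 (h P Q cP cQ xP xQ aP cP' bQ dQ) dis

theorem conn {u a : V} (h : G.Adj u a ∨ ∃ k, k ≠ x ∧ G.Adj u k ∧ G.Adj k a) (hxa : G.Adj x a) :
    ∃ k, k ≠ x ∧ G.Adj u k ∧ (k = a ∨ G.Adj k a) := by
  rcases h with h | ⟨k, h1, h2, h3⟩
  · exact ⟨a, hxa.ne', h, Or.inl rfl⟩
  · exact ⟨k, h1, h2, Or.inr h3⟩

/-- u is adjacent to a3 and a4: contradiction to K23 -/
theorem both (hK : K23Stmt) (F : F5 G R x a0 a1 a2 a3 a4) (hU : FU G R x a0 a1 a2 a3 a4 u)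
    (hV : FU G R x a0 a1 a2 a3 a4 v) (nuv : u ≠ v) {c : V} (cx : c ≠ x)
    (c1 : c ≠ a1) (cu : G.Adj c u) (cv : G.Adj c v) (c3 : G.Adj c a3) (c4 : G.Adj c a4)
    (u3 : G.Adj u a3) (u4 : G.Adj u a4) : False :=
  hK V G R a3 a4 x c u a1 v F.s5 F.r3 F.r4 F.n34 cx.symm hU.nx.symm cu.ne F.x3.symm c3.symm
    u3.symm F.x4.symm c4.symm u4.symm hU.r F.r1 hV.r F.x1 cv F.n13 F.n14 F.x1.ne' c1.symm
    hU.n1.symm hV.n3 hV.n4 hV.nx cv.ne' nuv.symm

/-- the case v adjacent to a1 -/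
theorem caseV (hK : K23Stmt) (F : F5 G R x a0 a1 a2 a3 a4) (hU : FU G R x a0 a1 a2 a3 a4 u)
    (hV : FU G R x a0 a1 a2 a3 a4 v) (nuv : u ≠ v) (auv : ¬ G.Adj u v) (hb : Bad G x u v a1)
    {c : V} (cx : c ≠ x) (c0 : c ≠ a0) (c1 : c ≠ a1) (c2 : c ≠ a2) (cu : G.Adj c u)
    (cv : G.Adj c v) (c3 : G.Adj c a3) (c4 : G.Adj c a4) (v1 : G.Adj v a1) : False := by
  have u1 : ¬ G.Adj u a1 := fun h => hb a1 F.x1.ne' h v1 (Or.inl rfl)
  have d0 : ¬ G.Adj c a0 := fun h => c4.ne (F.w03 c cx h c3)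
  have d2 : ¬ G.Adj c a2 := fun h => c3.ne (F.w24 c cx h c4)
  obtain ⟨g0, g0x, ug0, g0'⟩ := conn hU.k0 F.x0
  obtain ⟨g2, g2x, ug2, g2'⟩ := conn hU.k2 F.x2
  have hK3 := both hK F hU hV nuv cx c1 cu cv c3 c4
  obtain ⟨r, nx, ax, n0, n1, n2, n3, n4, -, -, -, -, -⟩ := hU
  obtain ⟨r', nx', ax', n0', n1', n2', n3', n4', -, -, -, -, -⟩ := hV
  obtain ⟨-, -, -, -, -, -, x0, x1, x2, x3, x4, n01, n02, n03, n04, n12, n13, n14, n23, n24, n34,
    b02, b03, b13, b14, b24, w02, w03, w13, w14, w24, -, c0123, c0124, -, -, -⟩ := F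
  have hP : Con G {a0, g0, u, g2, a2} := con_five
    (by rcases g0' with h | h
        · exact Or.inl h.symm
        · exact Or.inr h.symm) (Or.inr ug0.symm) (Or.inr ug2) g2'
  have hxP : x ∉ ({a0, g0, u, g2, a2} : Set V) := by
    simp only [Set.mem_insert_iff, Set.mem_singleton_iff, not_or]
    exact ⟨x0.ne, g0x.symm, nx.symm, g2x.symm, x2.ne⟩
  have e0 := x0.ne
  have e1 := x1.ne
  have e2 := x2.ne
  have e3 := x3.ne
  have e4 := x4.ne
  have s02 : ¬ G.Adj a2 a0 := fun h => b02 h.symm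
  have s03 : ¬ G.Adj a3 a0 := fun h => b03 h.symm
  have s13 : ¬ G.Adj a3 a1 := fun h => b13 h.symm
  have s14 : ¬ G.Adj a4 a1 := fun h => b14 h.symm
  have s24 : ¬ G.Adj a4 a2 := fun h => b24 h.symm
  have k2 : g2 = a3 := by
    by_contra hne
    refine cr_no c0123 (P := {a0, g0, u, g2, a2}) (Q := {a1, v, c, a3}) hP
      (con_four (Or.inr v1.symm) (Or.inr cv.symm) (Or.inr c3)) hxP ?_ (by simp) (by simp)
      (by simp) (by simp) ?_
    · simp only [Set.mem_insert_iff, Set.mem_singleton_iff, not_or]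
      exact ⟨e1, nx'.symm, cx.symm, e3⟩
    · simp only [Set.disjoint_left, Set.mem_insert_iff, Set.mem_singleton_iff]
      grind
  have k0 : g0 = a4 := by
    by_contra hne
    refine cr_no c0124 (P := {a0, g0, u, g2, a2}) (Q := {a1, v, c, a4}) hP
      (con_four (Or.inr v1.symm) (Or.inr cv.symm) (Or.inr c4)) hxP ?_ (by simp) (by simp)
      (by simp) (by simp) ?_
    · simp only [Set.mem_insert_iff, Set.mem_singleton_iff, not_or]
      exact ⟨e1, nx'.symm, cx.symm, e4⟩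
    · simp only [Set.disjoint_left, Set.mem_insert_iff, Set.mem_singleton_iff]
      grind
  rw [k2] at ug2
  rw [k0] at ug0
  exact hK3 ug2 ug0

/-- a connector from u to a1 is a0 or a2 -/
theorem pEnd (hK : K23Stmt) (F : F5 G R x a0 a1 a2 a3 a4) (hU : FU G R x a0 a1 a2 a3 a4 u)
    (hV : FU G R x a0 a1 a2 a3 a4 v) (nuv : u ≠ v) (auv : ¬ G.Adj u v) (hb : Bad G x u v a1)
    {c : V} (cx : c ≠ x) (c0 : c ≠ a0) (c1 : c ≠ a1) (c2 : c ≠ a2) (cu : G.Adj c u)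
    (cv : G.Adj c v) (c3 : G.Adj c a3) (c4 : G.Adj c a4) (v1 : ¬ G.Adj v a1)
    {p : V} (px : p ≠ x) (up : G.Adj u p) (p1 : G.Adj p a1) : p = a0 ∨ p = a2 := by
  have nb : ∀ c, c ≠ x → G.Adj u c → G.Adj v c → ¬ G.Adj c a1 := by
    intro c h1 h2 h3 h
    exact hb c h1 h2 h3 (Or.inr h)
  have d0 : ¬ G.Adj c a0 := fun h => c4.ne (F.w03 c cx h c3)
  have d2 : ¬ G.Adj c a2 := fun h => c3.ne (F.w24 c cx h c4)
  obtain ⟨h0, h0x, vh0, h0'⟩ := conn hV.k0 F.x0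
  obtain ⟨h2, h2x, vh2, h2'⟩ := conn hV.k2 F.x2
  have hK3 := both hK F hV hU nuv.symm cx c1 cv cu c3 c4
  obtain ⟨r, nx, ax, n0, n1, n2, n3, n4, -, -, -, -, -⟩ := hU
  obtain ⟨r', nx', ax', n0', n1', n2', n3', n4', -, -, -, -, -⟩ := hV
  obtain ⟨-, -, -, -, -, -, x0, x1, x2, x3, x4, n01, n02, n03, n04, n12, n13, n14, n23, n24, n34,
    b02, b03, b13, b14, b24, w02, w03, w13, w14, w24, -, c0123, c0124, -, -, -⟩ := F
  have hP : Con G {a0, h0, v, h2, a2} := con_five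
    (by rcases h0' with h | h
        · exact Or.inl h.symm
        · exact Or.inr h.symm) (Or.inr vh0.symm) (Or.inr vh2) h2'
  have hxP : x ∉ ({a0, h0, v, h2, a2} : Set V) := by
    simp only [Set.mem_insert_iff, Set.mem_singleton_iff, not_or]
    exact ⟨x0.ne, h0x.symm, nx'.symm, h2x.symm, x2.ne⟩
  have e1 := x1.ne
  have e3 := x3.ne
  have e4 := x4.ne
  have s02 : ¬ G.Adj a2 a0 := fun h => b02 h.symm
  have s03 : ¬ G.Adj a3 a0 := fun h => b03 h.symm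
  have s13 : ¬ G.Adj a3 a1 := fun h => b13 h.symm
  have s14 : ¬ G.Adj a4 a1 := fun h => b14 h.symm
  have s24 : ¬ G.Adj a4 a2 := fun h => b24 h.symm
  have np := nb p px up
  have avu : ¬ G.Adj v u := fun h => auv h.symm
  by_contra hp
  rw [not_or] at hp
  obtain ⟨hp0, hp2⟩ := hp
  have k2 : h2 = a3 := by
    by_contra hne
    refine cr_no c0123 (P := {a0, h0, v, h2, a2}) (Q := {a1, p, u, c, a3}) hP
      (con_five (Or.inr p1.symm) (Or.inr up.symm) (Or.inr cu.symm) (Or.inr c3)) hxP ?_ (by simp)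
      (by simp) (by simp) (by simp) ?_
    · simp only [Set.mem_insert_iff, Set.mem_singleton_iff, not_or]
      exact ⟨e1, px.symm, nx.symm, cx.symm, e3⟩
    · simp only [Set.disjoint_left, Set.mem_insert_iff, Set.mem_singleton_iff]
      grind
  have k0 : h0 = a4 := by
    by_contra hne
    refine cr_no c0124 (P := {a0, h0, v, h2, a2}) (Q := {a1, p, u, c, a4}) hP
      (con_five (Or.inr p1.symm) (Or.inr up.symm) (Or.inr cu.symm) (Or.inr c4)) hxP ?_ (by simp)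
      (by simp) (by simp) (by simp) ?_
    · simp only [Set.mem_insert_iff, Set.mem_singleton_iff, not_or]
      exact ⟨e1, px.symm, nx.symm, cx.symm, e4⟩
    · simp only [Set.disjoint_left, Set.mem_insert_iff, Set.mem_singleton_iff]
      grind
  rw [k2] at vh2
  rw [k0] at vh0
  exact hK3 vh2 vh0

/-- the final configuration -/
theorem fin (F : F5 G R x a0 a1 a2 a3 a4) (hU : FU G R x a0 a1 a2 a3 a4 u)
    (hV : FU G R x a0 a1 a2 a3 a4 v) (nuv : u ≠ v) (auv : ¬ G.Adj u v)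
    {c : V} (cx : c ≠ x) (c0 : c ≠ a0) (c2 : c ≠ a2) (cu : G.Adj c u)
    (cv : G.Adj c v) (c3 : G.Adj c a3) (c4 : G.Adj c a4) (u1 : ¬ G.Adj u a1)
    (u2 : G.Adj u a2) (v0 : G.Adj v a0) : False := by
  have d0 : ¬ G.Adj c a0 := fun h => c4.ne (F.w03 c cx h c3)
  have d2 : ¬ G.Adj c a2 := fun h => c3.ne (F.w24 c cx h c4)
  have u0 : ¬ G.Adj u a0 := fun h => hU.n1 (F.w02 u hU.nx h u2)
  have v2 : ¬ G.Adj v a2 := fun h => hV.n1 (F.w02 v hV.nx v0 h)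
  have v3 : ¬ G.Adj v a3 := fun h => hV.n4 (F.w03 v hV.nx v0 h)
  obtain ⟨g0, g0x, ug0, g00⟩ := hU.k0.resolve_left u0
  obtain ⟨h2, h2x, vh2, h22⟩ := hV.k2.resolve_left v2
  have hgh : g0 ≠ h2 := by
    intro h
    rw [← h] at h22
    have h1 := F.w02 g0 g0x g00 h22
    rw [h1] at ug0
    exact u1 ug0
  obtain ⟨r, nx, ax, n0, n1, n2, n3, n4, -, -, -, -, -⟩ := hU
  obtain ⟨r', nx', ax', n0', n1', n2', n3', n4', -, -, -, -, -⟩ := hV
  have pg := F.s5.lf.pg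
  obtain ⟨-, -, -, -, -, -, x0, x1, x2, x3, x4, n01, n02, n03, n04, n12, n13, n14, n23, n24, n34,
    b02, b03, b13, b14, b24, w02, w03, w13, w14, w24, -, -, -, -, -, -⟩ := F
  have e0 := x0.ne
  have e2 := x2.ne
  have e3 := x3.ne
  have s02 : ¬ G.Adj a2 a0 := fun h => b02 h.symm
  have s03 : ¬ G.Adj a3 a0 := fun h => b03 h.symm
  have avu : ¬ G.Adj v u := fun h => auv h.symm
  have e5 := g00.ne
  have e6 := h22.ne
  have e7 := cu.ne
  have e8 := cv.ne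
  refine no33 pg (A := {x}) (B := {u, g0}) (C := {v, h2}) (D := {c, a3}) (E := {a0}) (F := {a2})
      (con_single _) (con_pair (Or.inr ug0)) (con_pair (Or.inr vh2)) (con_pair (Or.inr c3))
      (con_single _) (con_single _)
      ?_ ?_ ?_ ?_ ?_ ?_ ?_ ?_ ?_ ?_ ?_ ?_ ?_ ?_ ?_
      ⟨x, by simp, a3, by simp, x3⟩ ⟨x, by simp, a0, by simp, x0⟩ ⟨x, by simp, a2, by simp, x2⟩
      ⟨u, by simp, c, by simp, cu.symm⟩ ⟨g0, by simp, a0, by simp, g00⟩
      ⟨u, by simp, a2, by simp, u2⟩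
      ⟨v, by simp, c, by simp, cv.symm⟩ ⟨v, by simp, a0, by simp, v0⟩
      ⟨h2, by simp, a2, by simp, h22⟩ <;>
      (simp only [Set.disjoint_left, Set.mem_insert_iff, Set.mem_singleton_iff]; grind)

theorem core (hK : K23Stmt) (F : F5 G R x a0 a1 a2 a3 a4) (hU : FU G R x a0 a1 a2 a3 a4 u)
    (hV : FU G R x a0 a1 a2 a3 a4 v) (nuv : u ≠ v) (auv : ¬ G.Adj u v) (hb : Bad G x u v a1)
    {c : V} (cx : c ≠ x) (c0 : c ≠ a0) (c1 : c ≠ a1) (c2 : c ≠ a2) (cu : G.Adj c u)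
    (cv : G.Adj c v) (c3 : G.Adj c a3) (c4 : G.Adj c a4) : False := by
  have avu : ¬ G.Adj v u := fun h => auv h.symm
  by_cases v1 : G.Adj v a1
  · exact caseV hK F hU hV nuv auv hb cx c0 c1 c2 cu cv c3 c4 v1
  by_cases u1 : G.Adj u a1
  · exact caseV hK F hV hU nuv.symm avu (bad_swap hb) cx c0 c1 c2 cv cu c3 c4 u1
  obtain ⟨p, px, up, p1⟩ := hU.k1.resolve_left u1
  obtain ⟨q, qx, vq, q1⟩ := hV.k1.resolve_left v1
  have hp := pEnd hK F hU hV nuv auv hb cx c0 c1 c2 cu cv c3 c4 v1 px up p1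
  have hq := pEnd hK F hV hU nuv.symm avu (bad_swap hb) cx c0 c1 c2 cv cu c3 c4 u1 qx vq q1
  have hpq : p ≠ q := by
    rintro rfl
    exact hb p px up vq (Or.inr p1)
  rcases hp with rfl | rfl <;> rcases hq with rfl | rfl
  · exact hpq rfl
  · exact fin F hV hU nuv.symm avu cx c0 c2 cv cu c3 c4 v1 vq up
  · exact fin F hU hV nuv auv cx c0 c2 cu cv c3 c4 u1 up vq
  · exact hpq rfl

theorem k5d (hK : K23Stmt) : K5DStmt := by
  intro V G R x t u v c H hb hh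
  have F := F5.of H.toW5
  have out : ∀ {a}, a ∈ R → G.Adj x a → c ≠ a := by
    rintro a h1 h2 rfl
    exact hh.out (mem_D.2 ⟨h1, h2⟩)
  exact core hK F (FU.of F H.mu) (FU.of F H.mv) H.nuv H.auv hb hh.ne (out F.r0 F.x0)
    (out F.r1 F.x1) (out F.r2 F.x2) hh.cu hh.cv hh.ca hh.cb

end Pool.Agent.H45.RCQ.K5D
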